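import Pool.Agent.R490.GPj

set_option autoImplicit false

/-!
# Almost all `n` are `x + y` with `n x² + y` an almost prime, already for very small `x`
-/

namespace Pool.Agent.Results.MP_51a963_nt.SmallestX

open Finset Filter

open Classical in
/-- the number of the integers `1 ≤ x ≤ T` for which there is a positive integer `y` with `x + y = n` such
that `N = n x² + y ≥ 2` has at most `k` prime factors (counted with multiplicity), all of them at least `w` -/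
noncomputable def smallX (n k : ℕ) (w T : ℝ) : ℕ :=
  ((Icc 1 ⌊T⌋₊).filter (fun x : ℕ => ∃ y : ℕ, 1 ≤ y ∧ x + y = n ∧ 2 ≤ n * x ^ 2 + y ∧
    (n * x ^ 2 + y).primeFactorsList.length ≤ k ∧ ∀ q : ℕ, q.Prime → q ∣ n * x ^ 2 + y → w ≤ q)).card

lemma cnt_le (n k : ℕ) (w T : ℝ) (hT : (⌊T⌋₊ : ℕ) < n) :
    R490.LGb.cnt R490.GPj.An R490.GPj.Bn k ⌊T⌋₊ n w ≤ smallX n k w T := by
  classical
  unfold R490.LGb.cnt smallX
  apply card_le_card
  intro j hj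
  rw [mem_filter] at hj ⊢
  obtain ⟨h1, h2, h3, h4⟩ := hj
  have hj2 := mem_Icc.1 h1
  obtain ⟨b, hb⟩ : ∃ b : ℕ, n = j + b := ⟨n - j, by omega⟩
  have e : (R490.GPj.An j : ℤ) * n + R490.GPj.Bn j = ((n * j ^ 2 + b : ℕ) : ℤ) := by
    unfold R490.GPj.An R490.GPj.Bn
    have hb' : (n : ℤ) = j + b := by exact_mod_cast hb
    push_cast
    linear_combination hb'
  rw [e] at h2 h3 h4
  rw [Int.toNat_natCast] at h3
  refine ⟨h1, b, by omega, hb.symm, by exact_mod_cast h2, h3, ?_⟩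
  intro q hq hd
  exact h4 q hq (by exact_mod_cast hd)

/-- **For almost all `n`, `n x² + y` with `x + y = n` is an almost prime for many of the smallest `x`.** -/
theorem result (θ ε : ℝ) (k : ℕ) (hθ : 0 < θ) (hθ1 : θ ≤ 1) (hk : 1 / 8 + 25 / (12 * θ) < k) (hε : 0 < ε) :
    ∃ κ Λ : ℝ, 0 < κ ∧ 0 < Λ ∧ ∀ l : ℝ, Λ ≤ l → ∃ X₀ : ℕ, ∀ X : ℕ, X₀ ≤ X → ∀ Z L : ℕ,
      (X : ℝ) ^ θ ≤ L → Z + L ≤ X →
      (({n : ℕ | n ∈ Ioc Z (Z + L) ∧
        (smallX n k ((X : ℝ) ^ (θ / 10)) (l * Real.log X) : ℝ) < κ * l} : Set ℕ).ncard : ℝ) ≤ ε * L := by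
  classical
  obtain ⟨κ, Λ, hκ, hΛ, g⟩ := R490.GPj.mainN θ (ε / 2) k hθ hθ1 hk (half_pos hε)
  refine ⟨κ, Λ, hκ, hΛ, ?_⟩
  intro l hl
  have hl0 : 0 < l := lt_of_lt_of_le hΛ hl
  have ev := Pool.Agent.TH464.PW.logpow_rpow 1 (2 * l / ε) θ (by positivity) hθ
  obtain ⟨X₀, hX₀⟩ := eventually_atTop.1 ((g l hl).and ev)
  refine ⟨max X₀ 1, ?_⟩
  intro X hX Z L hL hZ
  have hX1 : 1 ≤ X := (le_max_right _ _).trans hX
  have b1 := (hX₀ X ((le_max_left _ _).trans hX)).1 Z L hL hZ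
  have b2 := (hX₀ X ((le_max_left _ _).trans hX)).2
  rw [pow_one] at b2
  have b3 : (⌊l * Real.log X⌋₊ : ℝ) ≤ ε / 2 * L := by
    have hlog : 0 ≤ Real.log X := Real.log_nonneg (by exact_mod_cast hX1)
    refine (Nat.floor_le (by positivity)).trans ?_
    have c1 := b2.trans hL
    rw [div_mul_eq_mul_div, div_le_iff₀ hε] at c1
    linarith
  obtain ⟨E1, hE1⟩ : ∃ E1, E1 = ((Ioc Z (Z + L)).filter (fun n => R490.GPj.AdmN n ∧
        (R490.LGb.cnt R490.GPj.An R490.GPj.Bn k ⌊l * Real.log X⌋₊ n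
          ((X : ℝ) ^ (θ / 10)) : ℝ) < κ * l)) := ⟨_, rfl⟩
  rw [← hE1] at b1
  have hsub : ({n : ℕ | n ∈ Ioc Z (Z + L) ∧
        (smallX n k ((X : ℝ) ^ (θ / 10)) (l * Real.log X) : ℝ) < κ * l} : Set ℕ) ⊆
      ((E1 ∪ Ioc 0 ⌊l * Real.log X⌋₊ : Finset ℕ) : Set ℕ) := by
    intro n hn
    obtain ⟨a1, a2⟩ := hn
    have hn1 : 1 ≤ n := by
      have := mem_Ioc.1 a1
      omega
    rw [mem_coe, mem_union]
    rcases Nat.lt_or_ge ⌊l * Real.log X⌋₊ n with h | h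
    · left
      rw [hE1, mem_filter]
      refine ⟨a1, hn1, ?_⟩
      have a4 : (R490.LGb.cnt R490.GPj.An R490.GPj.Bn k ⌊l * Real.log X⌋₊ n ((X : ℝ) ^ (θ / 10)) : ℝ) ≤
          smallX n k ((X : ℝ) ^ (θ / 10)) (l * Real.log X) := by
        exact_mod_cast cnt_le n k ((X : ℝ) ^ (θ / 10)) (l * Real.log X) h
      linarith
    · right
      rw [mem_Ioc]
      omega
  have h5 := Set.ncard_le_ncard hsub (Finset.finite_toSet _)
  rw [Set.ncard_coe_finset] at h5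
  have h6 : ((E1 ∪ Ioc 0 ⌊l * Real.log X⌋₊).card : ℝ) ≤ E1.card + ⌊l * Real.log X⌋₊ := by
    have := card_union_le E1 (Ioc 0 ⌊l * Real.log X⌋₊)
    rw [Nat.card_Ioc, Nat.sub_zero] at this
    exact_mod_cast this
  have h7 : (({n : ℕ | n ∈ Ioc Z (Z + L) ∧
        (smallX n k ((X : ℝ) ^ (θ / 10)) (l * Real.log X) : ℝ) < κ * l} : Set ℕ).ncard : ℝ) ≤
      (E1 ∪ Ioc 0 ⌊l * Real.log X⌋₊).card := by exact_mod_cast h5
  linarith

end Pool.Agent.Results.MP_51a963_nt.SmallestX
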